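import Pool.Agent.Lib.MP_47b218_nt.Auto

/-! The Hankel determinants of the binary digit sum are 2-automatic modulo every `m ≥ 1`,
in particular modulo every power of two. -/

namespace Pool.Agent.Results.MP_47b218_nt.AutomaticAllModuli

/-- `s m` is the number of ones in the binary expansion of `m`. -/
def s (m : ℕ) : ℕ := (Nat.digits 2 m).count 1

/-- The `n × n` Hankel determinant `det [s (i + j)]`, `0 ≤ i, j < n`. -/
def H (n : ℕ) : ℤ := Matrix.det (Matrix.of fun i j : Fin n => (s ((i : ℕ) + (j : ℕ)) : ℤ))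

/-- The 2-kernel of a sequence. -/
def twoKernel (a : ℕ → ℤ) : Set (ℕ → ℤ) :=
  {b | ∃ e r : ℕ, r < 2 ^ e ∧ b = fun n => a (2 ^ e * n + r)}

/-- A sequence is 2-automatic when its 2-kernel is finite. -/
def IsTwoAutomatic (a : ℕ → ℤ) : Prop := (twoKernel a).Finite

lemma s_even (m : ℕ) : s (2 * m) = s m := by
  rcases Nat.eq_zero_or_pos m with rfl | hm
  · rfl
  · unfold s
    rw [Nat.digits_base_mul (by norm_num) hm]
    simp

lemma s_odd (m : ℕ) : s (2 * m + 1) = s m + 1 := by
  unfold s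
  rw [add_comm (2 * m) 1, Nat.digits_add 2 (by norm_num) 1 m (by norm_num) (by simp)]
  simp

example : H 1 = 0 ∧ H 2 = -1 ∧ H 3 = 2 ∧ H 4 = 5 := by
  decide +kernel

theorem result : ∀ m : ℕ, 1 ≤ m → IsTwoAutomatic (fun n => H (n + 1) % (m : ℤ)) := by
  intro m hm
  exact Pool.Agent.Lib.MP_47b218_nt.hankel_kernel_finite (s := fun k => (s k : ℤ))
    (fun k => by simp [s_even]) (fun k => by simp [s_odd]) m hm

end Pool.Agent.Results.MP_47b218_nt.AutomaticAllModuli
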