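import Pool.Agent.Lib.MP_47b218_nt.W.Main

/-! For odd weights, the Hankel determinants of the weighted binary digit sum are 2-automatic
modulo `2 ^ k` exactly when the weights are eventually periodic modulo `2 ^ k`. -/

namespace Pool.Agent.Results.MP_47b218_nt.OddWeights

/-- `s w m` is the sum of the weights `w j` over the positions `j` of the digits one in the binary
expansion of `m`. -/
def s (w : ℕ → ℤ) (m : ℕ) : ℤ := (m.bitIndices.map w).sum

/-- The `n × n` Hankel determinant `det [s w (i + j)]`, `0 ≤ i, j < n`. -/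
def H (w : ℕ → ℤ) (n : ℕ) : ℤ := Matrix.det (Matrix.of fun i j : Fin n => s w ((i : ℕ) + (j : ℕ)))

/-- The 2-kernel of a sequence. -/
def twoKernel (a : ℕ → ℤ) : Set (ℕ → ℤ) :=
  {b | ∃ e r : ℕ, r < 2 ^ e ∧ b = fun n => a (2 ^ e * n + r)}

/-- A sequence is 2-automatic when its 2-kernel is finite. -/
def IsTwoAutomatic (a : ℕ → ℤ) : Prop := (twoKernel a).Finite

example : H 1 1 = 0 ∧ H 1 2 = -1 ∧ H 1 3 = 2 ∧ H 1 4 = 5 := by
  decide +kernel

theorem result (w : ℕ → ℤ) (hw : ∀ j, Odd (w j)) (k : ℕ) :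
    IsTwoAutomatic (fun n => H w (n + 1) % 2 ^ k) ↔
      ∃ p N : ℕ, 0 < p ∧ ∀ j ≥ N, w (j + p) ≡ w j [ZMOD 2 ^ k] :=
  Pool.Agent.Lib.MP_47b218_nt.W.main hw k

end Pool.Agent.Results.MP_47b218_nt.OddWeights
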